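import Mathlib
import Pool.Agent.H55.FU.Asm
import Pool.Agent.H55.FW.GX

set_option autoImplicit false

/-!
# The Hilbert function of general fat points in spaces of large dimension

For every `m ≥ 2`, ALL `n ≥ 200 ^ m`, all numbers `r` and all multiplicities `w i ≤ m` the Hilbert
function of `r` general fat points of `ℙⁿ` has the expected value
`min (binom (n + d) n) (∑ binom (n + w i - 1) n)`

* in all degrees `d ≥ 3 m - 1`, and
* in all degrees, as soon as `∑ binom (n + w i - 1) n ≥ binom (n + 3 m - 1) n`.

The bound `3 m - 1` for the degree is linear in the multiplicity and does not depend on the dimension.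
For `m = 2` it is `5`, the bound of the theorem of Alexander and Hirschowitz.

The proof is a differential Horace method with respect to one hyperplane; the traces are controlled in
every degree by bounds for the defect of the general Hilbert function which are polynomials in the
dimension for fixed multiplicities, and the gap of a trace is filled with conditions of decreasing
multiplicities `m - 1, m - 2, …, 1`.
-/

namespace Pool.Agent.Results.MP_b56c98_ag.LargeDimension

open scoped LinearAlgebra.Projectivization
open Pool.Agent.H55.FU

/-- **Main result.** For all `m ≥ 2`, all `n ≥ 200 ^ m` and all `r` general points of `ℙⁿ` with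
multiplicities `w i ≤ m` the value of the Hilbert function of `R / ⋂ 𝔭_i ^ (w i)` in the degree `d` is
`min (binom (n + d) n) (∑ binom (n + w i - 1) n)` for all `d ≥ 3 m - 1`, and for all `d` if
`∑ binom (n + w i - 1) n ≥ binom (n + 3 m - 1) n`. One nonempty Zariski open set of `r`-tuples of
points serves for all the degrees. -/
theorem result (n m r : ℕ) (w : Fin r → ℕ) (hm : 2 ≤ m) (hn : 200 ^ m ≤ n) (hw : ∀ i, w i ≤ m) :
    ∃ U : Set (Fin r → ℙ ℂ (Fin (n + 1) → ℂ)), IsZariskiOpen U ∧ U.Nonempty ∧
      ∀ P ∈ U, ∀ d : ℕ,
        (3 * m - 1 ≤ d ∨ (n + (3 * m - 1)).choose n ≤ ∑ i, (n + w i - 1).choose n) →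
        hilbert (fatIdeal w P) d =
          min ((n + d).choose n : ℤ) (∑ i, ((n + w i - 1).choose n : ℤ)) := by
  have h2 : 2 ≤ n := by
    have h1 : 200 ^ 1 ≤ 200 ^ m := Nat.pow_le_pow_right (by norm_num) (by omega)
    omega
  obtain ⟨E, rfl⟩ : ∃ E, n = E + 1 + 1 := ⟨n - 2, by omega⟩
  exact assembly w (by omega) hw (Pool.Agent.H55.FW.GBx hm hn)

end Pool.Agent.Results.MP_b56c98_ag.LargeDimension
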