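import Mathlib
import Pool.Agent.H55.FU.Asm
import Pool.Agent.H55.FU.GVf

set_option autoImplicit false

/-!
# The Hilbert function of general fat points: a bound which is linear for `m = O(n)`

For ALL `n ≥ 4`, all `m ≥ 1`, all numbers `r` and all multiplicities `w i ≤ m` the Hilbert function
of `r` general fat points of `ℙⁿ` has the expected value
`min (binom (n + d) n) (∑ binom (n + w i - 1) n)` in all degrees `d ≥ D`, and in all degrees as soon as
`∑ binom (n + w i - 1) n ≥ binom (n + D) n`, where

* `D = 128 m` if `m ≤ n`, and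
* `D ≥ 1024 m (1 + m / n) ^ 2` in general.

So for every constant `K` there is a bound which is linear in `m`, for all `n ≥ 4` and all `m ≤ K n`:
below the degree `2 m - 1` two points of multiplicity `m` give a different value, so that this is the
right order of magnitude.

The proof is a differential Horace method with respect to one hyperplane; the traces are controlled in
every degree by bounds for the defect of the general Hilbert function, and there is no induction on the
dimension.
-/

namespace Pool.Agent.Results.MP_b56c98_ag.LinearDegrees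

open scoped LinearAlgebra.Projectivization
open Pool.Agent.H55.FU

/-- **Main result.** Let `n ≥ 4`, `m ≥ 1`, and let `D ≥ 128 m` if `m ≤ n`, or `D ≥ 1024 m (1 + m / n) ^ 2`.
For all `r` general points of `ℙⁿ` with multiplicities `w i ≤ m` the value of the Hilbert function of
`R / ⋂ 𝔭_i ^ (w i)` in the degree `d` is `min (binom (n + d) n) (∑ binom (n + w i - 1) n)` for all
`d ≥ D`, and for all `d` if `∑ binom (n + w i - 1) n ≥ binom (n + D) n`. One nonempty Zariski open set
of `r`-tuples of points serves for all the degrees. -/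
theorem result (n m r D : ℕ) (w : Fin r → ℕ) (hn : 4 ≤ n) (hm : 1 ≤ m) (hw : ∀ i, w i ≤ m)
    (hD : (m ≤ n ∧ 128 * m ≤ D) ∨ 1024 * m * (n + m) ^ 2 ≤ n ^ 2 * D) :
    ∃ U : Set (Fin r → ℙ ℂ (Fin (n + 1) → ℂ)), IsZariskiOpen U ∧ U.Nonempty ∧
      ∀ P ∈ U, ∀ d : ℕ,
        (D ≤ d ∨ (n + D).choose n ≤ ∑ i, (n + w i - 1).choose n) →
        hilbert (fatIdeal w P) d =
          min ((n + d).choose n : ℤ) (∑ i, ((n + w i - 1).choose n : ℤ)) := by
  obtain ⟨E, rfl⟩ : ∃ E, n = E + 1 + 1 := ⟨n - 2, by omega⟩
  refine assembly w hm hw ?_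
  rcases hD with ⟨h1, h2⟩ | h
  · exact GC (by omega) hm (by omega) h2
  · exact GV (by omega) hm h

end Pool.Agent.Results.MP_b56c98_ag.LinearDegrees
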