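import Mathlib
import Pool.Agent.H55.FU.Asm
import Pool.Agent.H55.FX.GX3

set_option autoImplicit false

/-!
# The Hilbert function of general points of multiplicity at most three

For all numbers `r` and all multiplicities `w i ≤ 3` the Hilbert function of `r` general fat points of
`ℙⁿ` has the expected value `min (binom (n + d) n) (∑ binom (n + w i - 1) n)` in all degrees `d ≥ D`,
where

* `D = 31` for `n = 4`, `22` for `n = 5`, `18` for `n = 6`, `16` for `n = 7`, `15` for `n = 8`,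
  `14` for `n = 9`, `13` for `10 ≤ n ≤ 13`,
* `D = 12` for `14 ≤ n ≤ 17`, `11` for `18 ≤ n ≤ 23`, `10` for `24 ≤ n ≤ 41`, `9` for `42 ≤ n ≤ 311`,
* `D = 8` for all `n ≥ 312`,

and in all degrees as soon as `∑ binom (n + w i - 1) n ≥ binom (n + D) n`.

The proof is a differential Horace method with respect to one hyperplane; the traces are controlled in
every degree by bounds for the defect of the general Hilbert function, and the gap of a trace is filled
with conditions of multiplicity two and one.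
-/

set_option autoImplicit false

namespace Pool.Agent.Results.MP_b56c98_ag.TriplePoints

open scoped LinearAlgebra.Projectivization
open Pool.Agent.H55.FU

/-- **Main result.** Let `n` and `D` satisfy one of the twelve pairs of inequalities. For all `r`
general points of `ℙⁿ` with multiplicities `w i ≤ 3` the value of the Hilbert function of
`R / ⋂ 𝔭_i ^ (w i)` in the degree `d` is `min (binom (n + d) n) (∑ binom (n + w i - 1) n)` for all
`d ≥ D`, and for all `d` if `∑ binom (n + w i - 1) n ≥ binom (n + D) n`. One nonempty Zariski open set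
of `r`-tuples of points serves for all the degrees. -/
theorem result (n D r : ℕ) (w : Fin r → ℕ) (hw : ∀ i, w i ≤ 3)
    (hD : (4 ≤ n ∧ 31 ≤ D) ∨ (5 ≤ n ∧ 22 ≤ D) ∨ (6 ≤ n ∧ 18 ≤ D) ∨ (7 ≤ n ∧ 16 ≤ D) ∨
      (8 ≤ n ∧ 15 ≤ D) ∨ (9 ≤ n ∧ 14 ≤ D) ∨ (10 ≤ n ∧ 13 ≤ D) ∨ (14 ≤ n ∧ 12 ≤ D) ∨
      (18 ≤ n ∧ 11 ≤ D) ∨ (24 ≤ n ∧ 10 ≤ D) ∨ (42 ≤ n ∧ 9 ≤ D) ∨ (312 ≤ n ∧ 8 ≤ D)) :
    ∃ U : Set (Fin r → ℙ ℂ (Fin (n + 1) → ℂ)), IsZariskiOpen U ∧ U.Nonempty ∧
      ∀ P ∈ U, ∀ d : ℕ,
        (D ≤ d ∨ (n + D).choose n ≤ ∑ i, (n + w i - 1).choose n) →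
        hilbert (fatIdeal w P) d =
          min ((n + d).choose n : ℤ) (∑ i, ((n + w i - 1).choose n : ℤ)) := by
  obtain ⟨E, rfl⟩ : ∃ E, n = E + 1 := ⟨n - 1, by omega⟩
  exact assembly w (by norm_num) hw (Pool.Agent.H55.FX.G3 hD)

end Pool.Agent.Results.MP_b56c98_ag.TriplePoints
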