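import Mathlib
import Pool.Agent.H55.FU.Asm
import Pool.Agent.H55.FU.GUf

set_option autoImplicit false

/-!
# The Hilbert function of general fat points: a bound for the degree in all dimensions at once

For ALL `n ≥ 3`, all `m ≥ 1`, all numbers `r` and all multiplicities `w i ≤ m` the Hilbert function of `r`
general fat points of `ℙⁿ` has the expected value
`min (binom (n + d) n) (∑ binom (n + w i - 1) n)` in all degrees `d ≥ D`, and in all degrees as soon as
`∑ binom (n + w i - 1) n ≥ binom (n + D) n`, for every `D` with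

`64 ^ (n - 2) * m ^ (2 n - 2) ≤ D ^ (n - 2)`, that is `D ≥ 64 m ^ (2 + 2 / (n - 2))`.

In particular `D = 64 m ^ 4` is good for all `n ≥ 3` and `D = 64 m ^ 3` for all `n ≥ 4`: for every fixed
`m ≥ 3` only finitely many degrees remain, the same for all `n` and all `r`; the exponent of `m` tends
to `2`.

The proof is a differential Horace method with respect to one hyperplane; the traces are controlled in
every degree by bounds for the defect of the general Hilbert function, and there is no induction on the
dimension.
-/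

namespace Pool.Agent.Results.MP_b56c98_ag.UniformInDimension

open scoped LinearAlgebra.Projectivization
open Pool.Agent.H55.FU

/-- **Main result.** Let `n ≥ 3`, `m ≥ 1` and `64 ^ (n - 2) * m ^ (2 n - 2) ≤ D ^ (n - 2)`. For all `r`
general points of `ℙⁿ` with multiplicities `w i ≤ m` the value of the Hilbert function of
`R / ⋂ 𝔭_i ^ (w i)` in the degree `d` is `min (binom (n + d) n) (∑ binom (n + w i - 1) n)` for all
`d ≥ D`, and for all `d` if `∑ binom (n + w i - 1) n ≥ binom (n + D) n`. One nonempty Zariski open set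
of `r`-tuples of points serves for all the degrees. -/
theorem result (n m r D : ℕ) (w : Fin r → ℕ) (hn : 3 ≤ n) (hm : 1 ≤ m) (hw : ∀ i, w i ≤ m)
    (hD : 64 ^ (n - 2) * m ^ (2 * n - 2) ≤ D ^ (n - 2)) :
    ∃ U : Set (Fin r → ℙ ℂ (Fin (n + 1) → ℂ)), IsZariskiOpen U ∧ U.Nonempty ∧
      ∀ P ∈ U, ∀ d : ℕ,
        (D ≤ d ∨ (n + D).choose n ≤ ∑ i, (n + w i - 1).choose n) →
        hilbert (fatIdeal w P) d =
          min ((n + d).choose n : ℤ) (∑ i, ((n + w i - 1).choose n : ℤ)) := by
  obtain ⟨E, rfl⟩ : ∃ E, n = E + 1 + 1 := ⟨n - 2, by omega⟩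
  refine assembly w hm hw (GU (by omega) hm ?_)
  rw [show E + 1 + 1 - 2 = E by omega, show 2 * (E + 1 + 1) - 2 = 2 * E + 2 by omega] at hD
  exact hD

end Pool.Agent.Results.MP_b56c98_ag.UniformInDimension
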